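import Pool.Agent.MP_66cee2_co.D.TStart

/-
The arc in the lune between two unit spheres.
-/

namespace Pool.Agent.MP_66cee2_co.D.H92

open Set Metric Module Pool.Agent.MP_66cee2_co.X
open scoped RealInnerProductSpace

theorem nsq {d : ℕ} {Y e : E d} (hY : ‖Y‖ = 1) (he : ‖e‖ = 1) (l : ℝ) :
    ‖Y + l • e‖ ^ 2 = 1 + 2 * l * ⟪Y, e⟫ + l ^ 2 := by
  rw [norm_add_sq_real, norm_smul, inner_smul_right, hY, he, mul_one, Real.norm_eq_abs, sq_abs]
  ring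

theorem lt_one {x : ℝ} (h0 : 0 ≤ x) (h : x ^ 2 < 1) : x < 1 := by nlinarith

theorem one_lt {x : ℝ} (h0 : 0 ≤ x) (h : 1 < x ^ 2) : 1 < x := by nlinarith

theorem eq_one {x : ℝ} (h0 : 0 ≤ x) (h : x ^ 2 = 1) : x = 1 := by nlinarith

theorem lune_c {d : ℕ} (hd : 3 ≤ d) (c e : E d) (h : ℝ) (he : ‖e‖ = 1) (h0 : 0 < h)
    (h1 : h ≤ 1 / 2) :
    Arcs {y : E d | ‖y - (c + h • e)‖ < 1 ∧ 1 < ‖y - (c - h • e)‖} (d - 1) := by
  obtain ⟨f, -, hf, -, -, hfe, -⟩ := TStartx.frame hd he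
  let m : ℝ → E d := fun s => s • f + √(1 - s ^ 2) • e
  let γ : ℝ → E d := fun s => c + (m s + (3 / 4 * h) • e)
  have γc : Continuous γ := by fun_prop
  have mn : ∀ s ∈ Icc (-1 / 2 : ℝ) (1 / 2), ‖m s‖ = 1 := fun s hs =>
    TStartx.arc_norm he hf hfe hs
  have me : ∀ s, ⟪m s, e⟫ = √(1 - s ^ 2) := fun s => by
    simp [m, inner_add_left, inner_smul_left, hfe, he]
  have mu : ∀ s ∈ Icc (-1 / 2 : ℝ) (1 / 2), 4 / 5 ≤ √(1 - s ^ 2) ∧ √(1 - s ^ 2) ≤ 1 :=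
    fun s hs => ⟨Real.le_sqrt_of_sq_le (by nlinarith [hs.1, hs.2]),
      Real.sqrt_le_iff.2 ⟨zero_le_one, by nlinarith [sq_nonneg s]⟩⟩
  refine ⟨γ '' Icc (-1 / 2) (1 / 2) ∪ {y | ‖y - c‖ = 1 ∧ 3 / 5 * h ≤ ⟪y - c, e⟫},
    γ '' Icc (-1 / 2) (1 / 2), ?_, ?_, subset_union_left,
    isPreconnected_Icc.image _ γc.continuousOn, ?_, ?_⟩
  · refine (isCompact_Icc.image γc).union ?_
    refine (isCompact_sphere c 1).of_isClosed_subset ?_ fun y hy => mem_sphere_iff_norm.2 hy.1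
    have c1 : Continuous fun y : E d => ‖y - c‖ := by fun_prop
    have c2 : Continuous fun y : E d => ⟪y - c, e⟫ := by fun_prop
    exact (isClosed_eq c1 continuous_const).inter (isClosed_le continuous_const c2)
  · rintro y (⟨s, hs, rfl⟩ | ⟨hy, ht⟩)
    · have e1 : γ s - (c + h • e) = m s + (-(h / 4)) • e := by simp only [γ]; module
      have e2 : γ s - (c - h • e) = m s + (7 / 4 * h) • e := by simp only [γ]; module
      obtain ⟨u1, u2⟩ := mu s hs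
      refine ⟨lt_one (norm_nonneg _) ?_, one_lt (norm_nonneg _) ?_⟩
      · rw [e1, nsq (mn s hs) he, me]
        nlinarith
      · rw [e2, nsq (mn s hs) he, me]
        nlinarith
    · have e1 : y - (c + h • e) = (y - c) + (-h) • e := by module
      have e2 : y - (c - h • e) = (y - c) + h • e := by module
      refine ⟨lt_one (norm_nonneg _) ?_, one_lt (norm_nonneg _) ?_⟩
      · rw [e1, nsq hy he]
        nlinarith
      · rw [e2, nsq hy he]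
        nlinarith
  · refine ⟨_, ⟨1 / 2, by norm_num, rfl⟩, _, ⟨-1 / 2, by norm_num, rfl⟩, ?_⟩
    have : γ (1 / 2) - γ (-1 / 2) = f := by
      have e1 : ((-1 / 2 : ℝ)) ^ 2 = (1 / 2) ^ 2 := by norm_num
      simp only [γ, m, e1]
      module
    rw [this, hf]
  · rintro _ ⟨s, hs, rfl⟩
    obtain ⟨u1, u2⟩ := mu s hs
    obtain ⟨g, hg⟩ : ∃ g, g = m s + (3 / 4 * h) • e := ⟨_, rfl⟩
    have g2 : ‖g‖ ^ 2 = 1 + 2 * (3 / 4 * h) * √(1 - s ^ 2) + (3 / 4 * h) ^ 2 := by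
      rw [hg, nsq (mn s hs) he, me]
    have g3 : 1 ≤ ‖g‖ ^ 2 := by rw [g2]; nlinarith
    have g4 : ‖g‖ ^ 2 < 2 := by rw [g2]; nlinarith
    have g0 : g ≠ 0 := by
      rintro rfl
      rw [norm_zero] at g3
      norm_num at g3
    have k1 := Submodule.finrank_add_finrank_orthogonal (ℝ ∙ g)
    rw [finrank_span_singleton g0, finrank_euclideanSpace_fin] at k1
    have r0 : 0 < 1 - ‖g‖ ^ 2 / 4 := by linarith
    have r2 : √(1 - ‖g‖ ^ 2 / 4) ^ 2 = 1 - ‖g‖ ^ 2 / 4 := Real.sq_sqrt r0.le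
    refine ⟨c + (1 / 2 : ℝ) • g, (ℝ ∙ g)ᗮ, √(1 - ‖g‖ ^ 2 / 4), by omega, Real.sqrt_pos.2 r0,
      by rw [r2]; linarith, by rw [r2]; linarith, fun y hy => ?_⟩
    obtain ⟨z, hz⟩ : ∃ z, z = y - (c + (1 / 2 : ℝ) • g) := ⟨_, rfl⟩
    have z1 : ⟪z, g⟫ = 0 := by
      rw [hz]
      exact Submodule.mem_orthogonal_singleton_iff_inner_left.1 hy.1
    have z2 : ‖z‖ ^ 2 = 1 - ‖g‖ ^ 2 / 4 := by rw [hz, hy.2, r2]
    have z3 : ∀ l : ℝ, l ^ 2 = 1 / 4 → ‖z + l • g‖ = 1 := fun l hl => by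
      refine eq_one (norm_nonneg _) ?_
      rw [norm_add_sq_real, norm_smul, inner_smul_right, z1, z2, mul_pow, Real.norm_eq_abs,
        sq_abs, hl]
      ring
    have e1 : y - c = z + (1 / 2 : ℝ) • g := by rw [hz]; module
    have e2 : y - γ s = z + (-1 / 2 : ℝ) • g := by
      rw [hz]
      simp only [γ]
      rw [← hg]
      module
    have n1 : ‖y - c‖ = 1 := by rw [e1]; exact z3 _ (by norm_num)
    refine ⟨Or.inr ⟨n1, ?_⟩, by rw [e2]; exact z3 _ (by norm_num)⟩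
    have i1 : ⟪y - c, g⟫ = ‖g‖ ^ 2 / 2 := by
      rw [e1, inner_add_left, z1, inner_smul_left, real_inner_self_eq_norm_sq]
      simp
      ring
    have i2 : ⟪y - c, g⟫ = s * ⟪y - c, f⟫ + (√(1 - s ^ 2) + 3 / 4 * h) * ⟪y - c, e⟫ := by
      rw [hg]
      simp only [m, inner_add_right, inner_smul_right]
      ring
    have i3 : |⟪y - c, f⟫| ≤ 1 := by
      have := abs_real_inner_le_norm (y - c) f
      rwa [n1, hf, mul_one] at this
    have i4 : s * ⟪y - c, f⟫ ≤ 1 / 2 := by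
      obtain ⟨p1, p2⟩ := abs_le.1 i3
      nlinarith [hs.1, hs.2]
    by_contra hlt
    have hlt := not_le.1 hlt
    have i5 := mul_lt_mul_of_pos_left hlt (show 0 < √(1 - s ^ 2) + 3 / 4 * h by linarith)
    rw [i1, g2] at i2
    nlinarith

/-- the lune contains an arc with a unit pair and the spheres of its neighbours. -/
theorem arcs_lune {d : ℕ} (hd : 3 ≤ d) (a b : E d) (hab : a ≠ b) (h1 : ‖a - b‖ ≤ 1) :
    Arcs {y : E d | ‖y - b‖ < 1 ∧ 1 < ‖y - a‖} (d - 1) := by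
  have h0 : 0 < ‖b - a‖ := norm_pos_iff.2 (sub_ne_zero.2 hab.symm)
  rw [norm_sub_rev] at h1
  have key := lune_c hd ((1 / 2 : ℝ) • (a + b)) (‖b - a‖⁻¹ • (b - a)) (‖b - a‖ / 2)
    (by rw [norm_smul, norm_inv, norm_norm, inv_mul_cancel₀ h0.ne']) (by linarith) (by linarith)
  have e0 : (‖b - a‖ / 2) • ‖b - a‖⁻¹ • (b - a) = (1 / 2 : ℝ) • (b - a) := by
    rw [smul_smul]
    congr 1
    field_simp
  have e1 : (1 / 2 : ℝ) • (a + b) + (1 / 2 : ℝ) • (b - a) = b := by module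
  have e2 : (1 / 2 : ℝ) • (a + b) - (1 / 2 : ℝ) • (b - a) = a := by module
  rwa [e0, e1, e2] at key

end Pool.Agent.MP_66cee2_co.D.H92
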