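import Pool.Agent.MP_66cee2_co.D.TT
import Pool.Agent.MP_66cee2_co.H92T.Lune

/-
The topological theorem for targets of dimension `2 d - 1`, from a continuum of triple points.
-/

namespace Pool.Agent.MP_66cee2_co.D.H92

open Set Metric Module Pool.Agent.MP_66cee2_co.X TAlgx

variable {n : ℕ}

/-- `W` is orthogonal to `M` orthogonal positive vectors, or to `M - 1` and semidefinite. -/
def St2 (M : ℕ) (W : Submodule ℝ (Ix n → ℝ)) : Prop :=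
  ∃ N : ℕ, Fr N W ∧ (M ≤ N ∨ (M ≤ N + 1 ∧ ∀ w ∈ W, 0 ≤ lz w w))

theorem step2 {M : ℕ} {W : Submodule ℝ (Ix n → ℝ)} {q q' : Ix n → ℝ} (hS : St2 M W) (hq : q ∈ W)
    (hq' : q' ∈ W) (h0 : 0 < lz q q) (h0' : 0 < lz q' q') (hE : ¬ Eqv W q' q) :
    St2 (M + 2) (nxt W q q') := by
  obtain ⟨N, hF, hN⟩ := hS
  obtain ⟨mu, hmu⟩ : ∃ mu : ℝ, mu * lz q q = lz q q' :=
    ⟨lz q q' / lz q q, div_mul_cancel₀ _ h0.ne'⟩
  have hx : q' - mu • q ∈ W := W.sub_mem hq' (W.smul_mem mu hq)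
  have hxq : lz (q' - mu • q) q = 0 := by rw [l_sub, hmu, lz_comm, sub_self]
  have hn : ∀ w ∈ nxt W q q', lz w (q' - mu • q) = 0 := fun w hw => by
    rw [r_sub, hw.2.1, hw.2.2, mul_zero, sub_zero]
  have hr : ¬ ∀ w ∈ W, lz w (q' - mu • q) = 0 := by
    intro h
    have h1 : ∀ w ∈ W, lz w q' = mu * lz w q := fun w hw => by
      have := h w hw
      rwa [r_sub, sub_eq_zero] at this
    refine hE ⟨mu, fun e => ?_, h1⟩
    rw [h1 q' hq', e, zero_mul] at h0'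
    exact lt_irrefl _ h0'
  have hF1 : Fr (N + 1) (nxt W q q) := app hF hq h0 fun w hw => ⟨hw.1, hw.2.1⟩
  rcases lt_or_ge 0 (lz (q' - mu • q) (q' - mu • q)) with hp | hp
  · refine ⟨N + 1 + 1, app hF1 (p := q' - mu • q) ⟨hx, hxq, hxq⟩ hp
      fun w hw => ⟨⟨hw.1, hw.2.1, hw.2.1⟩, hn w hw⟩, ?_⟩
    rcases hN with hN | ⟨hN, hW⟩
    · exact Or.inl (by omega)
    · exact Or.inr ⟨by omega, fun w hw => hW w hw.1⟩
  · rcases hN with hN | ⟨-, hW⟩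
    · refine ⟨N + 1, app hF hq h0 fun w hw => ⟨hw.1, hw.2.1⟩,
        Or.inr ⟨by omega, fun w hw => perp_nonneg (fun e => hr ?_) hp (hn w hw)⟩⟩
      intro w _
      rw [e, lz_comm]
      exact zero_dotProduct _
    · exact absurd (rad hW hx hp) hr

theorem cnt2 {M : ℕ} {W : Submodule ℝ (Ix n → ℝ)} {w : Ix n → ℝ} (hS : St2 M W) (hw : w ∈ W)
    (h0 : 0 < lz w w) : M ≤ n + 1 := by
  obtain ⟨N, hF, hN⟩ := hS
  obtain ⟨u, u1, u2, -⟩ : Fr (N + 1) (nxt W w w) := app hF hw h0 fun v hv => ⟨hv.1, hv.2.1⟩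
  have h := TCntx.card_le u u1 u2
  rw [Fintype.card_fin] at h
  omega

/-- the orthogonal complement. -/
def prp (L : Submodule ℝ (Ix n → ℝ)) : Submodule ℝ (Ix n → ℝ) where
  carrier := {w | ∀ x ∈ L, lz w x = 0}
  add_mem' := fun {a b} ha hb x hx =>
    (add_dotProduct a b _).trans ((congrArg₂ _ (ha x hx) (hb x hx)).trans (add_zero 0))
  zero_mem' := fun _ _ => zero_dotProduct _
  smul_mem' := fun c a ha x hx =>
    (smul_dotProduct c a _).trans ((congrArg _ (ha x hx)).trans (smul_zero c))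

theorem two_eq (L : Submodule ℝ (Ix n → ℝ)) (hL : 3 ≤ finrank ℝ L) (p q : Ix n → ℝ) :
    ∃ x ∈ L, x ≠ 0 ∧ x ⬝ᵥ p = 0 ∧ x ⬝ᵥ q = 0 := by
  let φ : L →ₗ[ℝ] ℝ × ℝ :=
    { toFun := fun x => (x.1 ⬝ᵥ p, x.1 ⬝ᵥ q)
      map_add' := fun x y => by simp [add_dotProduct]
      map_smul' := fun c x => by simp [smul_dotProduct] }
  have h : LinearMap.ker φ ≠ ⊥ :=
    LinearMap.ker_ne_bot_of_finrank_lt (by rw [finrank_prod, finrank_self]; omega)
  obtain ⟨x, hx, h0⟩ := (Submodule.ne_bot_iff _).1 h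
  have h1 : (x.1 ⬝ᵥ p, x.1 ⬝ᵥ q) = (0 : ℝ × ℝ) := hx
  exact ⟨x.1, x.2, fun e => h0 (Subtype.ext e), congrArg Prod.fst h1, congrArg Prod.snd h1⟩

theorem pos_of {x : Ix n → ℝ} (h0 : x ≠ 0) (h : x (Sum.inr true) = x (Sum.inr false)) :
    0 < lz x x := by
  rw [lz_eq, ← h]
  have h1 : 0 ≤ ∑ i, x (Sum.inl i) * x (Sum.inl i) :=
    Finset.sum_nonneg fun i _ => mul_self_nonneg _
  have h2 := mul_self_nonneg (x (Sum.inr true))
  by_contra hc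
  have h3 : ∑ i, x (Sum.inl i) * x (Sum.inl i) = 0 := by linarith
  have h4 : x (Sum.inr true) = 0 := mul_self_eq_zero.1 (by linarith)
  apply h0
  funext a
  rcases a with i | b
  · exact mul_self_eq_zero.1
      ((Finset.sum_eq_zero_iff_of_nonneg fun i _ => mul_self_nonneg _).1 h3 i (Finset.mem_univ i))
  · cases b
    · exact h ▸ h4
    · exact h4

theorem first (L : Submodule ℝ (Ix n → ℝ)) (hL : 3 ≤ finrank ℝ L) : St2 3 (prp L) := by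
  classical
  let p : Ix n → ℝ := Pi.single (Sum.inr true) 1 - Pi.single (Sum.inr false) 1
  have hp : ∀ x : Ix n → ℝ, x ⬝ᵥ p = 0 → x (Sum.inr true) = x (Sum.inr false) := fun x hx => by
    rw [dotProduct_sub, dotProduct_single, dotProduct_single] at hx
    linarith
  obtain ⟨x, x1, x2, x3, -⟩ := two_eq L hL p p
  obtain ⟨y, y1, y2, y3, y4⟩ := two_eq L hL p (Jv x)
  obtain ⟨z, z1, z2, z3, z4⟩ := two_eq L hL (Jv x) (Jv y)
  have F0 : Fr 0 (⊤ : Submodule ℝ (Ix n → ℝ)) :=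
    ⟨fun i => i.elim0, fun i => i.elim0, fun i => i.elim0, fun _ _ i => i.elim0⟩
  have F1 : Fr (0 + 1) (nxt ⊤ x x) :=
    app F0 Submodule.mem_top (pos_of x2 (hp x x3)) fun w hw => ⟨hw.1, hw.2.1⟩
  have hy : y ∈ nxt ⊤ x x := ⟨Submodule.mem_top, y4, y4⟩
  rcases lt_or_ge 0 (lz z z) with h | h
  · have F2 : Fr (0 + 1 + 1) (nxt ⊤ x y) :=
      app F1 hy (pos_of y2 (hp y y3)) fun w hw => ⟨⟨hw.1, hw.2.1, hw.2.1⟩, hw.2.2⟩
    exact ⟨0 + 1 + 1 + 1, app F2 (p := z) ⟨Submodule.mem_top, z3, z4⟩ h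
      fun w hw => ⟨⟨Submodule.mem_top, hw x x1, hw y y1⟩, hw z z1⟩, Or.inl le_rfl⟩
  · exact ⟨0 + 1 + 1, app F1 hy (pos_of y2 (hp y y3))
      fun w hw => ⟨⟨Submodule.mem_top, hw x x1, hw x x1⟩, hw y y1⟩,
      Or.inr ⟨le_rfl, fun w hw => perp_nonneg z2 h (hw z z1)⟩⟩

/-- a continuum all of whose points see a common space of labels of dimension three. -/
def STri : Prop :=
  ∀ (d n : ℕ) (O : (Ix n → ℝ) → Set (E d)), 3 ≤ d → Fam O →
    ∃ (K : Set (E d)) (a b : E d) (L : Submodule ℝ (Ix n → ℝ)), IsPreconnected K ∧ a ∈ K ∧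
      b ∈ K ∧ a ≠ b ∧ 3 ≤ finrank ℝ L ∧
      ∀ x ∈ K, ∀ v, ∀ y ∈ O v, ‖y - x‖ = 1 → ∀ w ∈ L, lz v w = 0

/-- the topological theorem. -/
theorem tt_of (hT : STri) (d n : ℕ) (O : (Ix n → ℝ) → Set (E d)) (hd : 3 ≤ d)
    (hn : n + 1 ≤ 2 * d) : ¬ Fam O := by
  intro hO
  have step : ∀ (k m : ℕ) (B : Set (E d)) (W : Submodule ℝ (Ix n → ℝ)), IsOpen B → Lab O B W →
      St2 k W → Arcs B m → ∃ (B' : Set (E d)) (W' : Submodule ℝ (Ix n → ℝ)), IsOpen B' ∧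
        Lab O B' W' ∧ St2 (k + 2) W' ∧ Inv B' m := by
    intro k m B W hB hL hS hA
    obtain ⟨G, g1, g2, g3, g4, g5⟩ := sTCap d m B hB hA
    obtain ⟨q, q', ζ, e, B', a1, a2, a3, a4, a5, a6, a7, a8, a9, a10⟩ :=
      sTStep d n O B G W hO hB hL g1 g2 g3 g4
    exact ⟨B', _, a8, a9, step2 hS a1 a2 a3 a4 a5, g5 ζ a6 e B' a7 a10⟩
  obtain ⟨K, a, b₀, L, hK, ha, hb₀, hab₀, hL, hP⟩ := hT d n O hd hO
  obtain ⟨b, hb, hab, h1⟩ : ∃ b ∈ K, a ≠ b ∧ ‖a - b‖ ≤ 1 := by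
    rcases le_or_gt ‖a - b₀‖ 1 with h | h
    · exact ⟨b₀, hb₀, hab₀, h⟩
    · have c : Continuous fun x : E d => ‖a - x‖ := by fun_prop
      obtain ⟨b, hb, e⟩ := hK.intermediate_value ha hb₀ c.continuousOn
        (show (1 : ℝ) ∈ Icc ‖a - a‖ ‖a - b₀‖ from ⟨by simp, h.le⟩)
      have e' : ‖a - b‖ = 1 := e
      refine ⟨b, hb, fun h0 => ?_, e'.le⟩
      rw [h0, sub_self, norm_zero] at e'
      exact zero_ne_one e'
  have cc : ∀ p : E d, Continuous fun y : E d => ‖y - p‖ := fun p => by fun_prop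
  have o1 : IsOpen {y : E d | ‖y - b‖ < 1 ∧ 1 < ‖y - a‖} :=
    (isOpen_lt (cc b) continuous_const).inter (isOpen_lt continuous_const (cc a))
  have l1 : Lab O {y : E d | ‖y - b‖ < 1 ∧ 1 < ‖y - a‖} (prp L) := by
    intro v y hy hB
    have c : Continuous fun x : E d => ‖y - x‖ := by fun_prop
    obtain ⟨x, hx, e⟩ := hK.intermediate_value hb ha c.continuousOn
      (show (1 : ℝ) ∈ Icc ‖y - b‖ ‖y - a‖ from ⟨hB.1.le, hB.2.le⟩)
    exact hP x hx v y hy e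
  have main : ∀ j : ℕ, j + 2 ≤ d → ∃ (B : Set (E d)) (W : Submodule ℝ (Ix n → ℝ)), IsOpen B ∧
      Lab O B W ∧ St2 (2 * j + 5) W ∧ Inv B (d - 1 - j) := by
    intro j
    induction j with
    | zero =>
      intro _
      exact step 3 (d - 1) _ _ o1 l1 (first L hL) (arcs_lune hd a b hab h1)
    | succ j ih =>
      intro hj
      obtain ⟨B, W, b1, b2, b3, b4⟩ := ih (by omega)
      have e1 : d - 1 - j = d - 1 - (j + 1) + 1 := by omega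
      rw [e1] at b4
      exact step (2 * j + 5) _ B W b1 b2 b3 (sTArc sTSlice d _ B (by omega) b4)
  obtain ⟨B, W, b1, b2, b3, b4⟩ := main (d - 2) (by omega)
  have e1 : d - 1 - (d - 2) = 1 := by omega
  rw [e1] at b4
  obtain ⟨x, hxB, hx⟩ := hO.dense.inter_open_nonempty B b1 (TStartx.last d B b4)
  obtain ⟨w, hw⟩ := mem_iUnion.1 hx
  have := cnt2 b3 (b2 w x hw hxB) (hO.pos w ⟨x, hw⟩)
  omega

end Pool.Agent.MP_66cee2_co.D.H92
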